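import Pool.Agent.H84.ND.Targets2
import Pool.Agent.H74.SM.CONN
import Pool.Agent.H55.SM.CRE

/-!
# MP_70ba79_ag, board `ndc_modules`, row CPO: the poles along the curve of the cubic part of a
section of weight 3
-/

set_option autoImplicit false

namespace Pool.Agent.H54.ND

open MvPolynomial SC Pool.Agent.H27.LV Pool.Agent.H84.SM Pool.Agent.H84.ND
open Pool.Agent.H60.SM (coa coeff_coa)
open Pool.Agent.H74.SM (chy_l chy_l1 chy_l2 sub_xa sub_ya cases3 pd_comm xa_ren)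
open Pool.Agent.H16.SM (sum3 euler aeval_sum_xb)

/-! ### The coaction of the grading of `B2` by the degree in `q` -/

/-- weights of the variables `q` -/
def wq : Fin 3 ⊕ Fin 2 → ℕ := Sum.elim (fun _ => 0) (fun _ => 1)

section cubic
variable {k : Type} [Field k]

/-- cubic forms in `q` -/
private def Cub (R : B2 k) : Prop := ∃ c : Fin 4 → MvPolynomial (Fin 3) k,
  R = aeval xb (c 0) * qb 0 ^ 3 + aeval xb (c 1) * qb 0 ^ 2 * qb 1 +
    aeval xb (c 2) * qb 0 * qb 1 ^ 2 + aeval xb (c 3) * qb 1 ^ 3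

private theorem cub_add {R S : B2 k} (hR : Cub R) (hS : Cub S) : Cub (R + S) := by
  obtain ⟨c, rfl⟩ := hR
  obtain ⟨c', rfl⟩ := hS
  refine ⟨fun i => c i + c' i, ?_⟩
  simp only [map_add]
  ring

private theorem cub_zero : Cub (0 : B2 k) := ⟨fun _ => 0, by simp⟩

private theorem cub_mon (m : Fin 3 ⊕ Fin 2 →₀ ℕ) (a : k)
    (hm : m (Sum.inr 0) + m (Sum.inr 1) = 3) : Cub (monomial m a : B2 k) := by
  have h1 : (monomial m a : B2 k) = aeval xb (C a * ∏ i : Fin 3, X i ^ m (Sum.inl i) :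
      MvPolynomial (Fin 3) k) * (qb 0 ^ m (Sum.inr 0) * qb 1 ^ m (Sum.inr 1)) := by
    rw [monomial_eq, Finsupp.prod_fintype _ _ (fun i => pow_zero _), Fintype.prod_sum_type,
      Fin.prod_univ_two, map_mul, map_prod, algHom_C]
    simp only [map_pow, aeval_X]
    rw [mul_assoc]
    rfl
  obtain ⟨P, hP⟩ : ∃ P : MvPolynomial (Fin 3) k, P = C a * ∏ i : Fin 3, X i ^ m (Sum.inl i) :=
    ⟨_, rfl⟩
  rw [← hP] at h1
  have h2 : m (Sum.inr 0) = 3 - m (Sum.inr 1) := by omega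
  have h3 : m (Sum.inr 1) ≤ 3 := by omega
  rw [h2] at h1
  rw [h1]
  interval_cases m (Sum.inr 1)
  · refine ⟨![P, 0, 0, 0], ?_⟩
    simp
  · refine ⟨![0, P, 0, 0], ?_⟩
    simp
    ring
  · refine ⟨![0, 0, P, 0], ?_⟩
    simp
    ring
  · refine ⟨![0, 0, 0, P], ?_⟩
    simp

private theorem cub_of {R : B2 k} (h : IsWeightedHomogeneous wq R 3) : Cub R := by
  rw [as_sum R]
  refine Finset.sum_induction _ Cub (fun _ _ => cub_add) cub_zero fun m hm => ?_
  refine cub_mon m _ ?_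
  have h1 := h (mem_support_iff.1 hm)
  rw [Finsupp.weight_apply, Finsupp.sum_fintype _ _ (fun i => by simp),
    Fintype.sum_sum_type, Fin.sum_univ_two] at h1
  simpa [wq] using h1

/-- homogeneity from the coaction -/
private theorem hom_of_coa {R : B2 k} (h : coa wq R = Polynomial.X ^ 3 * Polynomial.C R) :
    IsWeightedHomogeneous wq R 3 := by
  have h1 := coeff_coa wq R 3
  rw [h, mul_comm, Polynomial.coeff_C_mul, Polynomial.coeff_X_pow, if_pos rfl, mul_one] at h1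
  rw [h1]
  exact weightedHomogeneousComponent_isWeightedHomogeneous 3 R

/-- constants -/
private noncomputable def ic : B2 k →ₐ[k] Polynomial (B2 k) :=
  Polynomial.CAlgHom (R := k) (A := B2 k)

private theorem ic_apply (R : B2 k) : ic R = Polynomial.C R := rfl

private theorem coa_xb (P : MvPolynomial (Fin 3) k) :
    coa wq (aeval xb P : B2 k) = Polynomial.C (aeval xb P) := by
  have h : ((coa wq : B2 k →ₐ[k] Polynomial (B2 k)).comp (aeval xb) :
      MvPolynomial (Fin 3) k →ₐ[k] Polynomial (B2 k)) = (ic (k := k)).comp (aeval xb) := by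
    refine MvPolynomial.algHom_ext fun i => ?_
    rw [AlgHom.comp_apply, AlgHom.comp_apply, aeval_X, ic_apply]
    unfold coa xb
    rw [aeval_X]
    show Polynomial.C (X (Sum.inl i)) * Polynomial.X ^ 0 = _
    rw [pow_zero, mul_one]
  exact DFunLike.congr_fun h P

private theorem coa_xi (i : Fin 3) : coa wq (xb (k := k) i) = Polynomial.C (xb i) := by
  have h := coa_xb (X i : MvPolynomial (Fin 3) k)
  rwa [aeval_X] at h

private theorem coa_qb (j : Fin 2) :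
    coa wq (qb (k := k) j) = Polynomial.X * Polynomial.C (qb j) := by
  unfold coa qb
  rw [aeval_X]
  show Polynomial.C (X (Sum.inr j)) * Polynomial.X ^ 1 = _
  rw [pow_one, mul_comm]

private theorem coa_chy (G : MvPolynomial (Fin 3) k) (l i : Fin 3) :
    coa wq (chy G l i) = Polynomial.X * Polynomial.C (chy G l i) := by
  have hgr : ∀ j, coa wq (gr G (xb (k := k)) j) = Polynomial.C (gr G xb j) := fun j => coa_xb _
  refine cases3 l (fun i => coa wq (chy G l i) = Polynomial.X * Polynomial.C (chy G l i))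
    ?_ ?_ ?_ i
  · rw [chy_l, map_neg, map_add, map_mul, map_mul, hgr, hgr, coa_qb, coa_qb, map_neg, map_add,
      map_mul, map_mul]
    ring
  · rw [chy_l1, map_mul, hgr, coa_qb, map_mul]
    ring
  · rw [chy_l2, map_mul, hgr, coa_qb, map_mul]
    ring

private theorem coa_sub {e i : ℕ} {β : A2 k} (hβ : BH e i β) (G : MvPolynomial (Fin 3) k)
    (l : Fin 3) : coa wq (aeval (Sum.elim xb (chy G l)) β : B2 k) =
      Polynomial.X ^ i * Polynomial.C (aeval (Sum.elim xb (chy G l)) β) := by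
  have h1 : coa wq (aeval (Sum.elim xb (chy G l)) β : B2 k) =
      aeval (fun s => coa wq (Sum.elim xb (chy G l) s)) β := by
    rw [← comp_aeval_apply]
  have h2 : (fun s => coa wq (Sum.elim xb (chy G l) s)) =
      Sum.elim (fun j => 1 * Polynomial.C (xb (k := k) j))
        (fun j => Polynomial.X * Polynomial.C (chy G l j)) := by
    funext s
    rcases s with s | s
    · rw [Sum.elim_inl, Sum.elim_inl, one_mul, coa_xi]
    · rw [Sum.elim_inr, Sum.elim_inr, coa_chy]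
  have h3 : aeval (Sum.elim (fun j => Polynomial.C (xb (k := k) j))
      (fun j => Polynomial.C (chy G l j))) β =
      Polynomial.C (aeval (Sum.elim xb (chy G l)) β : B2 k) := by
    have h4 : ic (aeval (Sum.elim xb (chy G l)) β : B2 k) =
        aeval (fun s => ic (Sum.elim xb (chy G l) s)) β := by
      rw [← comp_aeval_apply]
    have h5 : (fun s => ic (Sum.elim xb (chy G l) s)) =
        Sum.elim (fun j => Polynomial.C (xb (k := k) j))
          (fun j => Polynomial.C (chy G l j)) := by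
      funext s
      rcases s with s | s <;> rfl
    rw [← h5, ← h4, ic_apply]
  rw [h1, h2, Pool.Agent.H55.SM.bh_scale hβ, one_pow, one_mul, h3]

private theorem coa_hs (G : MvPolynomial (Fin 3) k) (l : Fin 3) :
    coa wq (hs G xb (chy G l)) = Polynomial.X ^ 2 * Polynomial.C (hs G xb (chy G l)) := by
  unfold hs
  rw [map_sum, map_sum, Finset.mul_sum]
  refine Finset.sum_congr rfl fun i _ => ?_
  rw [map_sum, map_sum, Finset.mul_sum]
  refine Finset.sum_congr rfl fun j _ => ?_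
  rw [map_mul, map_mul, coa_xb, coa_chy, coa_chy, map_mul, map_mul]
  ring

end cubic

/-! ### The substitution -/

section subst
variable {k : Type} [Field k]

/-- the projection of `y`, times `d G` -/
private noncomputable def pp (G : MvPolynomial (Fin 3) k) (d : ℕ) (i : Fin 3) : A2 k :=
  (d : A2 k) * gA G * ya i - fA G * xa i

/-- the substitution -/
private noncomputable def ta (G : MvPolynomial (Fin 3) k) (d : ℕ) (l : Fin 3) :
    B2 k →ₐ[k] A2 k := aeval (Sum.elim xa ![pp G d (l + 1), pp G d (l + 2)])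

private theorem ta_xb (G : MvPolynomial (Fin 3) k) (d : ℕ) (l : Fin 3)
    (P : MvPolynomial (Fin 3) k) : ta G d l (aeval xb P) = aeval xa P := aeval_sum_xb _ _ P

private theorem ta_xi (G : MvPolynomial (Fin 3) k) (d : ℕ) (l i : Fin 3) :
    ta G d l (xb i) = xa i := by
  unfold ta xb
  rw [aeval_X, Sum.elim_inl]

private theorem ta_q0 (G : MvPolynomial (Fin 3) k) (d : ℕ) (l : Fin 3) :
    ta G d l (qb 0) = pp G d (l + 1) := by
  unfold ta qb
  rw [aeval_X, Sum.elim_inr]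
  rfl

private theorem ta_q1 (G : MvPolynomial (Fin 3) k) (d : ℕ) (l : Fin 3) :
    ta G d l (qb 1) = pp G d (l + 2) := by
  unfold ta qb
  rw [aeval_X, Sum.elim_inr]
  rfl

private theorem eul {G : MvPolynomial (Fin 3) k} {d : ℕ} (hG : G.IsHomogeneous d) (l : Fin 3) :
    xa l * gr G (xa (k := k)) l + xa (l + 1) * gr G xa (l + 1) + xa (l + 2) * gr G xa (l + 2) =
      (d : A2 k) * gA G := by
  rw [← sum3 (fun i => xa i * gr G (xa (k := k)) i) l]
  exact euler hG (xa (k := k))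

private theorem fA_eq (G : MvPolynomial (Fin 3) k) (l : Fin 3) :
    fA G = gr G xa l * ya l + gr G xa (l + 1) * ya (l + 1) + gr G xa (l + 2) * ya (l + 2) := by
  unfold fA dp
  rw [sum3 (fun i => gr G (xa (k := k)) i * ya i) l]

private theorem ta_chy {G : MvPolynomial (Fin 3) k} {d : ℕ} (hG : G.IsHomogeneous d)
    (l i : Fin 3) : ta G d l (chy G l i) = gr G xa l * pp G d i := by
  have hgr : ∀ j, ta G d l (gr G (xb (k := k)) j) = gr G xa j := fun j => ta_xb G d l _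
  refine cases3 l (fun i => ta G d l (chy G l i) = gr G xa l * pp G d i) ?_ ?_ ?_ i
  · rw [chy_l, map_neg, map_add, map_mul, map_mul, hgr, hgr, ta_q0, ta_q1]
    have h1 := eul hG l
    have h2 := fA_eq G l
    unfold pp
    linear_combination ((d : A2 k) * gA G) * h2 + (fA G) * h1
  · rw [chy_l1, map_mul, hgr, ta_q0]
  · rw [chy_l2, map_mul, hgr, ta_q1]

private theorem ta_sub [CharZero k] {e : ℕ} {β : A2 k} (hβ : BH e 3 β) (hd : dv β = 0)
    {G : MvPolynomial (Fin 3) k} {d : ℕ} (hG : G.IsHomogeneous d) (l : Fin 3) :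
    ta G d l (aeval (Sum.elim xb (chy G l)) β) =
      (gr G xa l * ((d : A2 k) * gA G)) ^ 3 * β := by
  have h1 : ta G d l (aeval (Sum.elim xb (chy G l)) β) =
      aeval (fun s => ta G d l (Sum.elim xb (chy G l) s)) β := by
    rw [← comp_aeval_apply]
  have h2 : (fun s => ta G d l (Sum.elim xb (chy G l) s)) =
      Sum.elim xa (fun i => (gr G xa l * ((d : A2 k) * gA G)) * ya i +
        (-(gr G xa l * fA G)) * xa i) := by
    funext s
    rcases s with s | s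
    · rw [Sum.elim_inl, Sum.elim_inl, ta_xi]
    · rw [Sum.elim_inr, Sum.elim_inr, ta_chy hG]
      unfold pp
      ring
  have h3 := Pool.Agent.H55.SM.bh_scale hβ (xa (k := k)) ya 1
    (gr G xa l * ((d : A2 k) * gA G))
  have h4 : (fun j => (1 : A2 k) * xa (k := k) j) = xa := by
    funext j
    rw [one_mul]
  have h5 : (Sum.elim xa ya : Fin 3 ⊕ Fin 3 → A2 k) = X := by
    funext s
    rcases s with s | s <;> rfl
  rw [h1, h2, Pool.Agent.H55.SM.inv_shift hd]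
  rw [h4, one_pow, one_mul, h5, aeval_X_left_apply] at h3
  exact h3

private theorem hs_pp {G : MvPolynomial (Fin 3) k} {d : ℕ} (hG : G.IsHomogeneous d) :
    hs G xa (pp G d) = (d : A2 k) * gA G * ((d : A2 k) * gA G * hs G xa ya -
      ((d - 1 : ℕ) : A2 k) * fA G ^ 2) := by
  have e := eul hG 0
  have e0 : xa (k := k) 0 * aeval xa (pderiv 0 (pderiv 0 G)) +
      xa 1 * aeval xa (pderiv 1 (pderiv 0 G)) + xa 2 * aeval xa (pderiv 2 (pderiv 0 G)) =
      ((d - 1 : ℕ) : A2 k) * gr G xa 0 := by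
    have h := euler (hG.pderiv (i := 0)) (xa (k := k))
    unfold dp gr at h
    rw [Fin.sum_univ_three] at h
    exact h
  have e1 : xa (k := k) 0 * aeval xa (pderiv 0 (pderiv 1 G)) +
      xa 1 * aeval xa (pderiv 1 (pderiv 1 G)) + xa 2 * aeval xa (pderiv 2 (pderiv 1 G)) =
      ((d - 1 : ℕ) : A2 k) * gr G xa 1 := by
    have h := euler (hG.pderiv (i := 1)) (xa (k := k))
    unfold dp gr at h
    rw [Fin.sum_univ_three] at h
    exact h
  have e2 : xa (k := k) 0 * aeval xa (pderiv 0 (pderiv 2 G)) +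
      xa 1 * aeval xa (pderiv 1 (pderiv 2 G)) + xa 2 * aeval xa (pderiv 2 (pderiv 2 G)) =
      ((d - 1 : ℕ) : A2 k) * gr G xa 2 := by
    have h := euler (hG.pderiv (i := 2)) (xa (k := k))
    unfold dp gr at h
    rw [Fin.sum_univ_three] at h
    exact h
  have hf := fA_eq G 0
  rw [pd_comm 1 0 G, pd_comm 2 0 G] at e0
  rw [pd_comm 2 1 G] at e1
  unfold hs
  simp only [Fin.sum_univ_three]
  rw [pd_comm 1 0 G, pd_comm 2 0 G, pd_comm 2 1 G]
  simp only [Fin.isValue, show (0 : Fin 3) + 1 = 1 from rfl,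
    show (0 : Fin 3) + 2 = 2 from rfl] at e hf
  obtain ⟨u, hu⟩ : ∃ u : A2 k, u = (d : A2 k) * gA G := ⟨_, rfl⟩
  obtain ⟨v, hv⟩ : ∃ v : A2 k, v = - fA G := ⟨_, rfl⟩
  have hp : ∀ i, pp G d i = u * ya i + v * xa i := by
    intro i
    unfold pp
    rw [hu, hv]
    ring
  rw [hp, hp, hp, ← hu]
  rw [← hu] at e
  have hf2 : fA G = - v := by rw [hv, neg_neg]
  rw [hf2] at hf ⊢
  linear_combination (2 * u * v * ya 0 + v ^ 2 * xa 0) * e0 +
    (2 * u * v * ya 1 + v ^ 2 * xa 1) * e1 + (2 * u * v * ya 2 + v ^ 2 * xa 2) * e2 +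
    (v ^ 2 * ((d - 1 : ℕ) : A2 k)) * e - (2 * u * v * ((d - 1 : ℕ) : A2 k)) * hf

private theorem ta_hs {G : MvPolynomial (Fin 3) k} {d : ℕ} (hG : G.IsHomogeneous d) (l : Fin 3) :
    ta G d l (hs G xb (chy G l)) = gr G xa l ^ 2 * hs G xa (pp G d) := by
  unfold hs
  rw [map_sum, Finset.mul_sum]
  refine Finset.sum_congr rfl fun i _ => ?_
  rw [map_sum, Finset.mul_sum]
  refine Finset.sum_congr rfl fun j _ => ?_
  rw [map_mul, map_mul, ta_xb, ta_chy hG, ta_chy hG]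
  ring

/-- `A2` retracts onto the polynomials in `x` -/
private noncomputable def rx (v : Fin 3 → MvPolynomial (Fin 3) k) :
    A2 k →ₐ[k] MvPolynomial (Fin 3) k := aeval (Sum.elim X v)

private theorem rx_xa (v : Fin 3 → MvPolynomial (Fin 3) k) (P : MvPolynomial (Fin 3) k) :
    rx v (aeval xa P) = P := by
  have h : ((rx v).comp (aeval xa) : MvPolynomial (Fin 3) k →ₐ[k] MvPolynomial (Fin 3) k) =
      AlgHom.id k _ := by
    refine MvPolynomial.algHom_ext fun i => ?_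
    simp [rx, xa]
  exact DFunLike.congr_fun h P

private theorem dvd_xa {P Q : MvPolynomial (Fin 3) k} (h : (aeval xa P : A2 k) ∣ aeval xa Q) :
    P ∣ Q := by
  have h1 := map_dvd (rx (k := k) 0) h
  rwa [rx_xa, rx_xa] at h1

private theorem rx_fA (G : MvPolynomial (Fin 3) k) (l : Fin 3) :
    rx (Pi.single l 1) (fA G) = pderiv l G := by
  unfold fA dp
  rw [map_sum, Finset.sum_eq_single l]
  · rw [map_mul]
    unfold gr
    rw [rx_xa]
    unfold rx ya
    rw [aeval_X, Sum.elim_inr, Pi.single_eq_same, mul_one]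
  · intro i _ hi
    rw [map_mul]
    unfold rx ya
    rw [aeval_X, Sum.elim_inr, Pi.single_eq_of_ne hi, mul_zero]
  · intro h
    exact absurd (Finset.mem_univ l) h

private theorem w0 (P : MvPolynomial (Fin 3) k) :
    IsWeightedHomogeneous wy (aeval xa P : A2 k) 0 := by
  rw [xa_ren]
  intro m hm
  obtain ⟨m', rfl, -⟩ := coeff_rename_ne_zero (Sum.inl : Fin 3 → Fin 3 ⊕ Fin 3) P m hm
  rw [Finsupp.weight_apply, Finsupp.sum_mapDomain_index]
  · refine Finset.sum_eq_zero fun i _ => ?_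
    show m' i • 0 = 0
    exact smul_zero _
  · intro a
    exact zero_smul _ _
  · intro a b c
    exact add_smul _ _ _

private theorem w1 (i : Fin 3) : IsWeightedHomogeneous wy (ya i : A2 k) 1 :=
  isWeightedHomogeneous_X k wy (Sum.inr i)

private theorem w01 {a b : A2 k} (ha : IsWeightedHomogeneous wy a 0)
    (hb : IsWeightedHomogeneous wy b 1) : IsWeightedHomogeneous wy (a * b) 1 := by
  have h := ha.mul hb
  rwa [zero_add] at h

private theorem w00 {a b : A2 k} (ha : IsWeightedHomogeneous wy a 0)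
    (hb : IsWeightedHomogeneous wy b 0) : IsWeightedHomogeneous wy (a * b) 0 := by
  have h := ha.mul hb
  rwa [zero_add] at h

private theorem wf (G : MvPolynomial (Fin 3) k) : IsWeightedHomogeneous wy (fA G) 1 := by
  rw [fA_eq G 0]
  exact ((w01 (w0 _) (w1 _)).add (w01 (w0 _) (w1 _))).add (w01 (w0 _) (w1 _))

private theorem rem_cub {G A : MvPolynomial (Fin 3) k} {e κ : ℕ} {β : A2 k} {R : B2 k}
    (hβ : BH e 3 β) (l : Fin 3) (hg0 : (aeval xb G : B2 k) ≠ 0)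
    (hR : aeval (Sum.elim xb (chy G l)) β - aeval xb G ^ κ * (aeval xb A * hs G xb (chy G l) *
      (xb (l + 1) * qb 1 - xb (l + 2) * qb 0)) = aeval xb G ^ (κ + 1) * R) : Cub R := by
  refine cub_of (hom_of_coa ?_)
  have h1 := congrArg (coa wq) hR
  rw [map_sub, coa_sub hβ, map_mul, map_pow, coa_xb, map_mul, map_mul, coa_xb, coa_hs, map_sub,
    map_mul, map_mul, coa_xi, coa_xi, coa_qb, coa_qb, map_mul, map_pow, coa_xb] at h1
  have h2 := congrArg (Polynomial.C (R := B2 k)) hR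
  rw [map_sub, map_mul, map_pow, map_mul, map_mul, map_sub, map_mul, map_mul, map_mul,
    map_pow] at h2
  have h3 : Polynomial.C (aeval xb G : B2 k) ^ (κ + 1) ≠ 0 :=
    pow_ne_zero _ (Polynomial.C_ne_zero.2 hg0)
  refine mul_left_cancel₀ h3 ?_
  linear_combination (Polynomial.X ^ 3) * h2 - h1

private theorem key [CharZero k] {G A : MvPolynomial (Fin 3) k} {d e κ : ℕ} {β : A2 k}
    (hG : G.IsHomogeneous d) (hβ : BH e 3 β) (hdv : dv β = 0) (l : Fin 3)
    (hg0 : (aeval xb G : B2 k) ≠ 0)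
    (hR : aeval xb G ^ (κ + 1) ∣ aeval (Sum.elim xb (chy G l)) β - aeval xb G ^ κ *
      (aeval xb A * hs G xb (chy G l) * (xb (l + 1) * qb 1 - xb (l + 2) * qb 0))) :
    ∃ (S0 : MvPolynomial (Fin 3) k) (S1 T : A2 k), IsWeightedHomogeneous wy S1 1 ∧
      gA G ^ 3 * ((d : A2 k) ^ 3 * (gr G xa l ^ 3 * β)) =
      gA G ^ (κ + 2) * (aeval xa A * gr G xa l ^ 2 * (d : A2 k) ^ 2 *
        ((d : A2 k) * gA G * hs G xa ya - ((d - 1 : ℕ) : A2 k) * fA G ^ 2) *
        (xa (l + 1) * ya (l + 2) - xa (l + 2) * ya (l + 1))) +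
      gA G ^ (κ + 1) * (- fA G ^ 3 * aeval xa S0 + fA G ^ 2 * ((d : A2 k) * gA G) * S1 +
        gA G ^ 2 * T) := by
  obtain ⟨R, hR⟩ := hR
  obtain ⟨c, hc⟩ := rem_cub hβ l hg0 hR
  have h1 := congrArg (ta G d l) hR
  rw [map_sub, ta_sub hβ hdv hG, map_mul, map_pow, ta_xb, map_mul, map_mul, ta_xb, ta_hs hG,
    hs_pp hG, map_sub, map_mul, map_mul, ta_xi, ta_xi, ta_q0, ta_q1, map_mul, map_pow, ta_xb] at h1
  have h2 := congrArg (ta G d l) hc
  rw [map_add, map_add, map_add, map_mul, map_mul, map_mul, map_mul, map_mul, map_mul, map_pow,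
    map_pow, map_pow, map_pow, ta_xb, ta_xb, ta_xb, ta_xb, ta_q0, ta_q1] at h2
  obtain ⟨S0, hS0⟩ : ∃ S : MvPolynomial (Fin 3) k, S = c 0 * X (l + 1) ^ 3 +
    c 1 * X (l + 1) ^ 2 * X (l + 2) + c 2 * X (l + 1) * X (l + 2) ^ 2 + c 3 * X (l + 2) ^ 3 :=
    ⟨_, rfl⟩
  have hS0' : aeval xa S0 = aeval xa (c 0) * xa (l + 1) ^ 3 +
      aeval xa (c 1) * xa (l + 1) ^ 2 * xa (l + 2) + aeval xa (c 2) * xa (l + 1) * xa (l + 2) ^ 2 +
      aeval xa (c 3) * xa (k := k) (l + 2) ^ 3 := by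
    rw [hS0]
    simp only [map_add, map_mul, map_pow, aeval_X]
  obtain ⟨P1, hP1⟩ : ∃ P : MvPolynomial (Fin 3) k, P = 3 * c 0 * X (l + 1) ^ 2 +
    2 * c 1 * X (l + 1) * X (l + 2) + c 2 * X (l + 2) ^ 2 := ⟨_, rfl⟩
  obtain ⟨P2, hP2⟩ : ∃ P : MvPolynomial (Fin 3) k, P = c 1 * X (l + 1) ^ 2 +
    2 * c 2 * X (l + 1) * X (l + 2) + 3 * c 3 * X (l + 2) ^ 2 := ⟨_, rfl⟩
  have hP1' : aeval xa P1 = 3 * aeval xa (c 0) * xa (l + 1) ^ 2 +
      2 * aeval xa (c 1) * xa (l + 1) * xa (l + 2) + aeval xa (c 2) * xa (k := k) (l + 2) ^ 2 := by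
    rw [hP1]
    simp only [map_add, map_mul, map_pow, aeval_X, map_ofNat]
  have hP2' : aeval xa P2 = aeval xa (c 1) * xa (l + 1) ^ 2 +
      2 * aeval xa (c 2) * xa (l + 1) * xa (l + 2) +
      3 * aeval xa (c 3) * xa (k := k) (l + 2) ^ 2 := by
    rw [hP2]
    simp only [map_add, map_mul, map_pow, aeval_X, map_ofNat]
  obtain ⟨x1, hx1⟩ : ∃ x : A2 k, x = xa (l + 1) := ⟨_, rfl⟩
  obtain ⟨x2, hx2⟩ : ∃ x : A2 k, x = xa (l + 2) := ⟨_, rfl⟩
  obtain ⟨y1, hy1⟩ : ∃ x : A2 k, x = ya (l + 1) := ⟨_, rfl⟩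
  obtain ⟨y2, hy2⟩ : ∃ x : A2 k, x = ya (l + 2) := ⟨_, rfl⟩
  obtain ⟨a0, ha0⟩ : ∃ x : A2 k, x = aeval xa (c 0) := ⟨_, rfl⟩
  obtain ⟨a1, ha1⟩ : ∃ x : A2 k, x = aeval xa (c 1) := ⟨_, rfl⟩
  obtain ⟨a2, ha2⟩ : ∃ x : A2 k, x = aeval xa (c 2) := ⟨_, rfl⟩
  obtain ⟨a3, ha3⟩ : ∃ x : A2 k, x = aeval xa (c 3) := ⟨_, rfl⟩
  refine ⟨S0, aeval xa P1 * ya (l + 1) + aeval xa P2 * ya (l + 2),
    - fA G * (d : A2 k) ^ 2 * (3 * a0 * x1 * y1 ^ 2 + a1 * (y1 ^ 2 * x2 + 2 * x1 * y1 * y2) +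
      a2 * (x1 * y2 ^ 2 + 2 * y1 * x2 * y2) + 3 * a3 * x2 * y2 ^ 2) +
    (d : A2 k) ^ 3 * gA G * (a0 * y1 ^ 3 + a1 * y1 ^ 2 * y2 + a2 * y1 * y2 ^ 2 + a3 * y2 ^ 3),
    (w01 (w0 _) (w1 _)).add (w01 (w0 _) (w1 _)), ?_⟩
  unfold pp at h1 h2
  rw [← hx1, ← hx2, ← hy1, ← hy2] at h1
  rw [← hx1, ← hx2, ← hy1, ← hy2, ← ha0, ← ha1, ← ha2, ← ha3] at h2
  rw [← hx1, ← hx2, ← ha0, ← ha1, ← ha2, ← ha3] at hS0'
  rw [← hx1, ← hx2, ← ha0, ← ha1, ← ha2] at hP1'
  rw [← hx1, ← hx2, ← ha1, ← ha2, ← ha3] at hP2'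
  rw [hS0', hP1', hP2', ← hx1, ← hx2, ← hy1, ← hy2]
  rw [h2] at h1
  have hg : aeval xa G = gA G := rfl
  rw [hg] at h1
  linear_combination h1

end subst

theorem pf_CPO (hGPN : T_GPN) : T_CPO := by
  intro k _ _ _ G d hI e α κ A β hκ hA hβ hdv hgβ hdvd
  obtain ⟨-, hgb, hga, -, hder⟩ := hGPN k G d hI
  have hG := hI.hom
  have hd0 : d ≠ 0 := by
    have := hI.two
    omega
  have hdu : IsUnit (d : A2 k) := Pool.Agent.H74.SM.natCast_unit hd0
  have hg0 : gA G ≠ 0 := hga.ne_zero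
  have hγ : ∀ l, ¬ gA G ∣ gr G xa l := fun l h => (hder l).2.1 (dvd_xa h)
  have hf : ¬ gA G ∣ fA G := by
    intro h
    have h1 := map_dvd (rx (k := k) (Pi.single 0 1)) h
    rw [rx_fA] at h1
    unfold gA at h1
    rw [rx_xa] at h1
    exact (hder 0).2.1 h1
  have hγβ : ∀ l, ¬ gA G ∣ (d : A2 k) ^ 3 * (gr G xa l ^ 3 * β) := by
    intro l h
    rcases hga.dvd_or_dvd h with h | h
    · exact hga.not_isUnit (isUnit_of_dvd_unit (hga.dvd_of_dvd_pow h) hdu)
    · rcases hga.dvd_or_dvd h with h | h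
      · exact hγ l (hga.dvd_of_dvd_pow h)
      · exact hgβ h
  have hkey := fun l => key hG hβ hdv l hgb.ne_zero (hdvd l)
  have hκ2 : κ ≤ 2 := by
    by_contra hcon
    obtain ⟨m, rfl⟩ : ∃ m, κ = m + 3 := ⟨κ - 3, by omega⟩
    obtain ⟨S0, S1, T, -, h⟩ := hkey 0
    obtain ⟨U, hU⟩ : ∃ U : A2 k, U = (aeval xa A * gr G xa 0 ^ 2 * (d : A2 k) ^ 2 *
        ((d : A2 k) * gA G * hs G xa ya - ((d - 1 : ℕ) : A2 k) * fA G ^ 2) *
        (xa (0 + 1) * ya (0 + 2) - xa (0 + 2) * ya (0 + 1))) := ⟨_, rfl⟩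
    obtain ⟨V, hV⟩ : ∃ V : A2 k, V = (- fA G ^ 3 * aeval xa S0 +
        fA G ^ 2 * ((d : A2 k) * gA G) * S1 + gA G ^ 2 * T) := ⟨_, rfl⟩
    rw [← hU, ← hV] at h
    refine hγβ 0 ⟨gA G ^ (m + 1) * U + gA G ^ m * V, ?_⟩
    refine mul_left_cancel₀ (pow_ne_zero 3 hg0) ?_
    rw [h]
    ring
  refine ⟨hκ2, fun l => ?_⟩
  obtain ⟨S0, S1, T, hS1, h⟩ := hkey l
  have hd0' : (d : k) ≠ 0 := Nat.cast_ne_zero.2 hd0
  have hdc : (aeval xa (C ((d : k) ^ 3)⁻¹ : MvPolynomial (Fin 3) k) : A2 k) * (d : A2 k) ^ 3 =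
      1 := by
    have h1 : (d : A2 k) = C (d : k) := by rw [map_natCast]
    rw [h1, ← map_pow, algHom_C]
    show C _ * C _ = _
    rw [← map_mul, inv_mul_cancel₀ (pow_ne_zero 3 hd0'), map_one]
  obtain ⟨cc, hcc⟩ : ∃ x : A2 k, x = aeval xa (C ((d : k) ^ 3)⁻¹ : MvPolynomial (Fin 3) k) :=
    ⟨_, rfl⟩
  have wc : IsWeightedHomogeneous wy cc 0 := by
    rw [hcc]
    exact w0 _
  rw [← hcc] at hdc
  have hκ' : κ = 1 ∨ κ = 2 := by omega
  have wn : ∀ n : ℕ, IsWeightedHomogeneous wy (n : A2 k) 0 := by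
    intro n
    have h1 : (n : A2 k) = aeval xa (n : MvPolynomial (Fin 3) k) := (map_natCast _ n).symm
    rw [h1]
    exact w0 _
  have wγ : IsWeightedHomogeneous wy (gr G xa l : A2 k) 0 := w0 _
  have wX : IsWeightedHomogeneous wy
      (xa (l + 1) * ya (l + 2) - xa (l + 2) * ya (l + 1) : A2 k) 1 := by
    have hx : ∀ i, IsWeightedHomogeneous wy (xa (k := k) i) 0 := by
      intro i
      have h1 := w0 (X i : MvPolynomial (Fin 3) k)
      rwa [aeval_X] at h1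
    exact (weightedHomogeneousSubmodule k wy 1).sub_mem (w01 (hx _) (w1 _)) (w01 (hx _) (w1 _))
  obtain ⟨Z, hZ⟩ : ∃ Z : A2 k, Z = xa (l + 1) * ya (l + 2) - xa (l + 2) * ya (l + 1) := ⟨_, rfl⟩
  obtain ⟨γ, hγe⟩ : ∃ Z : A2 k, Z = gr G xa l := ⟨_, rfl⟩
  rw [← hZ] at h wX
  rw [← hγe] at h wγ ⊢
  rcases hκ' with rfl | rfl
  · have h1 : gA G * ((d : A2 k) ^ 3 * (γ ^ 3 * β)) = gA G * (aeval xa A * γ ^ 2 * (d : A2 k) ^ 2 *
        ((d : A2 k) * gA G * hs G xa ya - ((d - 1 : ℕ) : A2 k) * fA G ^ 2) * Z) +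
        (- fA G ^ 3 * aeval xa S0 + fA G ^ 2 * ((d : A2 k) * gA G) * S1 + gA G ^ 2 * T) := by
      refine mul_left_cancel₀ (pow_ne_zero 2 hg0) ?_
      linear_combination h
    have h2 : gA G ∣ fA G ^ 3 * aeval xa S0 := by
      refine ⟨(aeval xa A * γ ^ 2 * (d : A2 k) ^ 2 *
        ((d : A2 k) * gA G * hs G xa ya - ((d - 1 : ℕ) : A2 k) * fA G ^ 2) * Z) +
        fA G ^ 2 * (d : A2 k) * S1 + gA G * T - (d : A2 k) ^ 3 * (γ ^ 3 * β), ?_⟩
      linear_combination h1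
    have h3 : G ∣ S0 := by
      rcases hga.dvd_or_dvd h2 with h | h
      · exact absurd (hga.dvd_of_dvd_pow h) hf
      · exact dvd_xa h
    obtain ⟨s, rfl⟩ := h3
    have h4 : (d : A2 k) ^ 3 * (γ ^ 3 * β) = (aeval xa A * γ ^ 2 * (d : A2 k) ^ 2 *
        ((d : A2 k) * gA G * hs G xa ya - ((d - 1 : ℕ) : A2 k) * fA G ^ 2) * Z) +
        (- fA G ^ 3 * aeval xa s + fA G ^ 2 * (d : A2 k) * S1 + gA G * T) := by
      refine mul_left_cancel₀ hg0 ?_
      rw [map_mul, show (aeval xa G : A2 k) = gA G from rfl] at h1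
      linear_combination h1
    refine ⟨cc * (-(((d - 1 : ℕ) : A2 k) * (d : A2 k) * (d : A2 k) * aeval xa A * γ * γ * Z) -
      aeval xa s * fA G + (d : A2 k) * S1), w01 wc ?_, ?_⟩
    · refine IsWeightedHomogeneous.add ?_ (w01 (wn _) hS1)
      refine (weightedHomogeneousSubmodule k wy 1).sub_mem ?_ (w01 (w0 _) (wf G))
      refine (weightedHomogeneousSubmodule k wy 1).neg_mem ?_
      exact w01 (w00 (w00 (w00 (w00 (w00 (wn _) (wn _)) (wn _)) (w0 _)) wγ) wγ) wX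
    · refine ⟨cc * (aeval xa A * γ ^ 2 * (d : A2 k) ^ 3 * hs G xa ya * Z + T), ?_⟩
      linear_combination cc * h4 - (γ ^ 3 * β) * hdc
  · have h1 : (d : A2 k) ^ 3 * (γ ^ 3 * β) = gA G * (aeval xa A * γ ^ 2 * (d : A2 k) ^ 2 *
        ((d : A2 k) * gA G * hs G xa ya - ((d - 1 : ℕ) : A2 k) * fA G ^ 2) * Z) +
        (- fA G ^ 3 * aeval xa S0 + fA G ^ 2 * ((d : A2 k) * gA G) * S1 + gA G ^ 2 * T) := by
      refine mul_left_cancel₀ (pow_ne_zero 3 hg0) ?_
      linear_combination h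
    refine ⟨-(cc * aeval xa S0), ?_, ?_⟩
    · exact (weightedHomogeneousSubmodule k wy 0).neg_mem (w00 wc (w0 _))
    · refine ⟨cc * ((aeval xa A * γ ^ 2 * (d : A2 k) ^ 2 *
        ((d : A2 k) * gA G * hs G xa ya - ((d - 1 : ℕ) : A2 k) * fA G ^ 2) * Z) +
        fA G ^ 2 * (d : A2 k) * S1 + gA G * T), ?_⟩
      linear_combination cc * h1 - (γ ^ 3 * β) * hdc

end Pool.Agent.H54.ND
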